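import Pool.Agent.W984.PH.Stm

/-! PH-UNI: Maclaurin for the comparison vector -/

set_option autoImplicit false

open Finset

namespace Pool.Agent.W174.PH

open Pool.Agent.W984.PH

theorem es_const {V : Type} [DecidableEq V] (x : V → ℝ) (U : Finset V) (c : ℝ)
    (hx : ∀ v ∈ U, x v = c) (i : ℕ) : es x U i = (U.card.choose i : ℝ) * c ^ i := by
  unfold es
  have h : ∀ e ∈ U.powersetCard i, ∏ v ∈ e, x v = c ^ i := by
    intro e he
    rw [mem_powersetCard] at he
    rw [prod_congr rfl (fun v hv => hx v (he.1 hv)), prod_const, he.2]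
  rw [sum_congr rfl h, sum_const, card_powersetCard, nsmul_eq_mul]

theorem desc_fp (m : ℕ) (hm : 1 ≤ m) (i : ℕ) :
    (m.descFactorial i : ℝ) = (m : ℝ) ^ i * fp i (1 / (m : ℝ)) := by
  have hm0 : (m : ℝ) ≠ 0 := by
    have : 0 < m := hm
    positivity
  induction i with
  | zero => simp [fp_zero]
  | succ k ih =>
    rw [Nat.descFactorial_succ, fp_succ, Nat.cast_mul, ih]
    by_cases h : k ≤ m
    · rw [Nat.cast_sub h]
      field_simp
      ring
    · have h1 : m.descFactorial k = 0 := Nat.descFactorial_eq_zero_iff_lt.mpr (by omega)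
      rw [h1, Nat.cast_zero] at ih
      have h2 : fp k (1 / (m : ℝ)) = 0 := by
        rcases mul_eq_zero.mp ih.symm with h3 | h3
        · exact absurd h3 (pow_ne_zero _ hm0)
        · exact h3
      rw [h2]
      ring

theorem choose_fp (m : ℕ) (hm : 1 ≤ m) (i : ℕ) (X : ℝ) :
    (m.choose i : ℝ) * (X / m) ^ i = fp i (1 / (m : ℝ)) * (X ^ i / (i.factorial : ℝ)) := by
  have hm0 : (m : ℝ) ≠ 0 := by
    have : 0 < m := hm
    positivity
  have hi : (i.factorial : ℝ) ≠ 0 := by positivity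
  have h1 := desc_fp m hm i
  rw [Nat.descFactorial_eq_factorial_mul_choose, Nat.cast_mul] at h1
  rw [div_pow]
  have hmi : (m : ℝ) ^ i ≠ 0 := pow_ne_zero _ hm0
  rw [← mul_div_assoc, ← mul_div_assoc, div_eq_div_iff hmi hi]
  calc (m.choose i : ℝ) * X ^ i * (i.factorial : ℝ)
      = ((i.factorial : ℝ) * (m.choose i : ℝ)) * X ^ i := by ring
    _ = _ := by rw [h1]; ring

/-- the comparison vector -/
noncomputable def yv (m1 m2 : ℕ) (X Y z : ℝ) : Option (Fin m1 ⊕ Fin m2) → ℝ
  | none => z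
  | some (Sum.inl _) => X / m1
  | some (Sum.inr _) => Y / m2

theorem uni (h1 : S_MAC) (h2 : S_VAN) : S_UNI := by
  intro m1 m2 X Y z hm1 hm2 hX hY hz hs r
  have hm10 : (m1 : ℝ) ≠ 0 := by
    have : 0 < m1 := hm1
    positivity
  have hm20 : (m2 : ℝ) ≠ 0 := by
    have : 0 < m2 := hm2
    positivity
  obtain ⟨y, hy⟩ : ∃ y, y = yv m1 m2 X Y z := ⟨_, rfl⟩
  obtain ⟨U1, hU1⟩ : ∃ U1 : Finset (Option (Fin m1 ⊕ Fin m2)),
      U1 = univ.image (fun i : Fin m1 => some (Sum.inl i)) := ⟨_, rfl⟩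
  obtain ⟨U2, hU2⟩ : ∃ U2 : Finset (Option (Fin m1 ⊕ Fin m2)),
      U2 = univ.image (fun i : Fin m2 => some (Sum.inr i)) := ⟨_, rfl⟩
  have c1 : U1.card = m1 := by
    rw [hU1, card_image_of_injective _ (fun a b h => by simpa using h), card_univ,
      Fintype.card_fin]
  have c2 : U2.card = m2 := by
    rw [hU2, card_image_of_injective _ (fun a b h => by simpa using h), card_univ,
      Fintype.card_fin]
  have hd : Disjoint U1 U2 := by
    rw [disjoint_left]
    intro a ha hb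
    rw [hU1] at ha
    rw [hU2] at hb
    obtain ⟨i, _, rfl⟩ := mem_image.mp ha
    obtain ⟨j, _, hj⟩ := mem_image.mp hb
    simp at hj
  have hn : (none : Option (Fin m1 ⊕ Fin m2)) ∉ U1 ∪ U2 := by
    rw [hU1, hU2]
    simp
  have y1 : ∀ v ∈ U1, y v = X / m1 := by
    intro v hv
    rw [hU1] at hv
    obtain ⟨i, _, rfl⟩ := mem_image.mp hv
    rw [hy]
    rfl
  have y2 : ∀ v ∈ U2, y v = Y / m2 := by
    intro v hv
    rw [hU2] at hv
    obtain ⟨i, _, rfl⟩ := mem_image.mp hv
    rw [hy]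
    rfl
  have y0 : y none = z := by rw [hy]; rfl
  have hy0 : ∀ v, 0 ≤ y v := by
    intro v
    rw [hy]
    rcases v with _ | (v | v)
    · exact hz
    · exact div_nonneg hX (Nat.cast_nonneg _)
    · exact div_nonneg hY (Nat.cast_nonneg _)
  have hsum : ∑ v ∈ insert none (U1 ∪ U2), y v = 1 := by
    rw [sum_insert hn, sum_union hd, sum_congr rfl y1, sum_congr rfl y2, sum_const, sum_const,
      c1, c2, y0, nsmul_eq_mul, nsmul_eq_mul, mul_div_cancel₀ _ hm10, mul_div_cancel₀ _ hm20]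
    linarith
  have hcard : (insert none (U1 ∪ U2)).card = m1 + m2 + 1 := by
    rw [card_insert_of_notMem hn, card_union_of_disjoint hd, c1, c2]
  have hes : ∀ k, es y (U1 ∪ U2) k = cv m1 m2 X Y k := by
    intro k
    rw [h2 _ y U1 U2 hd k]
    unfold cv
    apply sum_congr rfl
    intro p _
    rw [es_const y U1 _ y1, es_const y U2 _ y2, c1, c2, choose_fp m1 hm1, choose_fp m2 hm2]
  have key := h1 _ y (insert none (U1 ∪ U2)) (fun v _ => hy0 v) (by rw [hcard]; omega) (r + 1)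
  rw [hsum, one_pow, mul_one, hcard, es_insert y _ _ hn, hes, hes, y0] at key
  have e : ((m1 + m2 + 1 : ℕ) : ℝ) = (m1 : ℝ) + (m2 : ℝ) + 1 := by push_cast; ring
  rw [e] at key
  exact key

end Pool.Agent.W174.PH
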